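import Pool.Agent.H608.Ge.LogSer
import Pool.Agent.H608.Ge.LinPol
import Pool.Agent.H608.Ge.Omit
import Mathlib

/-!
# The logarithms of all integers `m ≥ 2`, with very few omitted blocks

Let `c_m(n) = 1` if `m` does not divide `n`, `c_m(n) = 1 - m` if it does. Then `log m = ∑ c_m(n) / n`. For a set `E`
of positive integers let `L_E(m)` be this series without its `k`-th blocks (the sum over `m (k - 1) < n ≤ m k`) for
`k ∈ E`. There are sets `E` with at most `C log log log K` elements up to `K` such that the numbers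
`L_E(2), L_E(3), L_E(4), …`, in particular the numbers `L_E(p)` for all primes `p`, are algebraically independent over
any given countable ring of real numbers, and all values of nonconstant polynomials and given entire functions at these
numbers are normal in every integer base, even jointly.
-/

set_option autoImplicit false

namespace Pool.Agent.Results.MP_d171e3_nt.FewOmittedBlocks

open Finset Filter Topology Metric
open Pool.Agent.H608.Sp Pool.Agent.H608.Ge

/-- the digit of `x` in base `b` at position `i` after the point -/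
noncomputable def digit (b : ℕ) (x : ℝ) (i : ℕ) : ℤ := ⌊x * (b : ℝ) ^ i⌋ % (b : ℤ)

open Classical in
/-- the tuple `x` is jointly normal in base `b`: every digit matrix with `n` rows and `m` columns
occurs along the positions with limiting frequency `b ^ (-(m * n))` -/
def JointlyNormal (b : ℕ) {n : ℕ} (x : Fin n → ℝ) : Prop :=
  ∀ m : ℕ, 1 ≤ m → ∀ D : Fin n → Fin m → Fin b,
    Tendsto (fun N : ℕ => (((Icc 1 N).filter fun i : ℕ =>
      ∀ (j : Fin n) (t : Fin m), digit b (x j) (i + (t : ℕ)) = ((D j t : ℕ) : ℤ)).card : ℝ) / (N : ℝ))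
      atTop (𝓝 (1 / (b : ℝ) ^ (m * n)))

/-- `A` has at least `H exp (- (log H) ^ (2 / 5))` elements in `[H, 2 H)`, for all large `H` -/
def NotTooSparse (A : Set ℕ) : Prop :=
  ∀ᶠ H : ℕ in atTop, H * Real.exp (-(Real.log H) ^ (2 / 5 : ℝ)) ≤
    (({k : ℕ | k ∈ A ∧ H ≤ k ∧ k < 2 * H}.ncard : ℕ) : ℝ)

/-- the coefficients: `1 - m` at the multiples of `m`, `1` elsewhere -/
noncomputable def coef (m n : ℕ) : ℝ := if m ∣ n then 1 - m else 1

/-- the `k`-th block of `m` terms of the series `∑ c_m(n) / n`, `k = 1, 2, …` -/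
noncomputable def block (m k : ℕ) : ℝ := ∑ n ∈ Ioc (m * (k - 1)) (m * k), coef m n / n

open Classical in
/-- the series without the blocks with numbers in `E` -/
noncomputable def L (E : Set ℕ) (m : ℕ) : ℝ := ∑' k : ℕ, if k + 1 ∈ E then 0 else block m (k + 1)

lemma jn_of_nt (b : ℕ) {n : ℕ} (x : Fin n → ℝ) (h : Pool.Agent.W206.ND.NT b x) :
    JointlyNormal b x := by
  intro m hm D
  have h1 := h m hm D
  refine h1.congr fun N => ?_
  congr 2

lemma block_eq {m k : ℕ} (hm : 2 ≤ m) (hk : 1 ≤ k) : block m k = ul m k := by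
  obtain ⟨l, rfl⟩ : ∃ l, k = l + 1 := ⟨k - 1, by omega⟩
  unfold block ul
  have h1 : Ioc (m * (l + 1 - 1)) (m * (l + 1)) = (range m).image fun j => m * (l + 1) - j := by
    ext n
    simp only [Nat.add_sub_cancel, mem_Ioc, mem_image, mem_range]
    rw [Nat.mul_succ]
    constructor
    · rintro ⟨h1, h2⟩
      exact ⟨m * l + m - n, by omega, by omega⟩
    · rintro ⟨j, hj, rfl⟩
      omega
  have hle : m ≤ m * (l + 1) := Nat.le_mul_of_pos_right m (by omega)
  rw [h1, sum_image]
  · have h2 : ∀ j ∈ range m, coef m (m * (l + 1) - j) / ((m * (l + 1) - j : ℕ) : ℝ) =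
        1 / ((m : ℝ) * ((l + 1 : ℕ) : ℝ) - j) - if j = 0 then 1 / ((l + 1 : ℕ) : ℝ) else 0 := by
      intro j hj
      have hj' := mem_range.1 hj
      rw [Nat.cast_sub (by omega)]
      push_cast
      unfold coef
      by_cases hj0 : j = 0
      · rw [if_pos hj0, hj0, Nat.sub_zero, if_pos (dvd_mul_right _ _)]
        push_cast
        have : (m : ℝ) ≠ 0 := by exact_mod_cast (by omega : m ≠ 0)
        have : (l : ℝ) + 1 ≠ 0 := by positivity
        rw [sub_zero]
        field_simp
      · have h3 : ¬ m ∣ m * (l + 1) - j := by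
          intro h4
          have h5 : m ∣ j := by
            have h6 := Nat.dvd_sub (dvd_mul_right m (l + 1)) h4
            rwa [Nat.sub_sub_self (by omega)] at h6
          exact absurd (Nat.le_of_dvd (by omega) h5) (by omega)
        rw [if_neg hj0, if_neg h3, sub_zero]
    rw [sum_congr rfl h2, sum_sub_distrib, sum_ite_eq' (range m) 0, if_pos (mem_range.2 (by omega))]
  · intro i hi j hj hij
    have hi' := mem_range.1 (mem_coe.1 hi)
    have hj' := mem_range.1 (mem_coe.1 hj)
    simp only at hij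
    omega

open Classical in
lemma L_eq (E : Set ℕ) {m : ℕ} (hm : 2 ≤ m) : L E m = ∑' k : ℕ, if k + 1 ∈ E then 0 else ul m (k + 1) := by
  unfold L
  apply tsum_congr
  intro k
  rw [block_eq hm (by omega)]

lemma L_empty {m : ℕ} (hm : 2 ≤ m) : L ∅ m = Real.log m := by
  rw [L_eq ∅ hm]
  simp only [Set.mem_empty_iff_false, if_false]
  exact (hasSum_ul (by omega)).tsum_eq

open Classical in
theorem result :
    -- without omitted blocks the numbers are the logarithms
    (∀ m : ℕ, 2 ≤ m → L ∅ m = Real.log m) ∧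
    ∃ C : ℝ, 0 < C ∧ ∀ A : Set ℕ, NotTooSparse A → ∀ (M : ℕ) (R : Subring ℝ), Countable R →
      ∀ 𝓕 : ∀ t : ℕ, Set ((Fin t → ℂ) → ℂ), (∀ t, (𝓕 t).Countable) →
      (∀ t, ∀ f ∈ 𝓕 t, AnalyticOnNhd ℂ f Set.univ ∧ ∀ a : Fin t → ℝ, (f fun i => (a i : ℂ)).im = 0) →
      ∃ E : Set ℕ, E ⊆ A ∧ (∀ m ∈ E, 1 ≤ m ∧ M ≤ m) ∧
        (∀ K : ℕ, 16 ≤ K → (({m : ℕ | m ∈ E ∧ m ≤ K}.ncard : ℕ) : ℝ) ≤
          C * Real.log (Real.log (Real.log K))) ∧
        -- algebraic independence for all integers, in particular for all primes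
        AlgebraicIndependent R (fun j : ℕ => L E (j + 2)) ∧
        AlgebraicIndependent R (fun p : Nat.Primes => L E p) ∧
        -- polynomials
        (∀ (n : ℕ) (P : Fin n → MvPolynomial ℕ R),
          (∀ v : Fin n → ℤ, v ≠ 0 → ∀ c, ∑ j, v j • P j ≠ MvPolynomial.C c) →
          ∀ b : ℕ, 2 ≤ b → JointlyNormal b fun j => MvPolynomial.aeval (fun j : ℕ => L E (j + 2)) (P j)) ∧
        -- entire functions
        ∀ (t n : ℕ) (f : Fin n → (Fin t → ℂ) → ℂ), (∀ j, f j ∈ 𝓕 t) →
          (∀ v : Fin n → ℤ, v ≠ 0 → ¬ ∃ c : ℂ, ∀ w, ∑ j, (v j : ℂ) * f j w = c) →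
          ∀ b : ℕ, 2 ≤ b → JointlyNormal b fun j => (f j fun i => ((L E ((i : ℕ) + 2) : ℝ) : ℂ)).re := by
  refine ⟨fun m hm => L_empty hm, ?_⟩
  obtain ⟨C, hC, hmain⟩ := linPol
  refine ⟨C, hC, fun A hA M R hR 𝓕 hF hF' => ?_⟩
  obtain ⟨E, z, hEA, hEK, hl, hind, hP, hf⟩ := hmain (fun j => serL (j + 2) (Nat.le_add_left 2 _)) linInd_L A hA M
    R hR 𝓕 hF hF'
  have h0E : 0 ∉ E := fun h => by
    have := (hEA 0 h).2.2
    omega
  have hz : z = fun j => L E (j + 2) := by
    funext j
    rw [L_eq E (Nat.le_add_left 2 j)]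
    exact tendsto_nhds_unique (hl j) (tendsto_omit (hasSum_ul (by omega)) h0E)
  rw [hz] at hind hP hf
  refine ⟨E, fun k hk => (hEA k hk).1, fun k hk => ⟨(hEA k hk).2.2, (hEA k hk).2.1⟩, hEK, hind, ?_,
    fun n P hP' b hb => jn_of_nt b _ (hP n P hP' b hb), fun t n f hf' hnc b hb => jn_of_nt b _ (hf t n f hf' hnc b hb)⟩
  have h1 := hind.comp (fun p : Nat.Primes => (p : ℕ) - 2) (fun p q hpq => by
    have h2 := p.2.two_le
    have h3 := q.2.two_le
    simp only at hpq
    exact Subtype.ext (by omega))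
  convert h1 using 1
  funext p
  simp only [Function.comp]
  congr 1
  have := p.2.two_le
  omega

end Pool.Agent.Results.MP_d171e3_nt.FewOmittedBlocks
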