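import Mathlib
import Pool.Agent.H443.PP.Tup
import Pool.Agent.H443.PP.Conv
import Pool.Agent.H443.VF.CInst

/-!
# For almost all integers linear relations are the only obstruction

Let `c_1, …, c_m` be arbitrary functions from the primes to the algebraic numbers and
`L_i (n) = ∑ v_p (n) c_i (p) log p`, the sum over the prime factors `p` of `n`. If the algebraic
independence of the logarithms of the primes is true, then all polynomial relations between the
numbers `L_i (n)` come from linear ones. Which relations hold for almost all `n`, and which relations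
hold only for few `n`? We show, without any hypothesis, that the following are equivalent.

* For every algebraic vector `g ≠ 0` the sum of `1 / p` over the primes `p` with
  `∑ g_i c_i (p) ≠ 0` diverges.
* For no algebraic vector `g ≠ 0` the relation `∑ g_i L_i (n) = 0` holds for a set of integers `n` of
  positive lower density.
* For all `k`, `D`, `N` and `ε > 0`, for large `x_j`, uniformly in the space `W` of complex numbers of
  dimension at most `N` over the algebraic numbers and in the shifts `s_{j,i}`: for all but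
  `ε x_1 ⋯ x_k` of the `k`-tuples of integers `1 ≤ n_j ≤ x_j` the `k m` numbers
  `L_i (n_j) + s_{j,i}` satisfy no nonzero polynomial relation of degree at most `D` with
  coefficients in `W`.
-/

set_option autoImplicit false

namespace Pool.Agent.Results.MP_d171e3_nt.OnlyLinearObstructions

/-- The sum of the numbers `c_i (p) log p` over the prime factors `p` of `n`, with multiplicity. -/
noncomputable def L {m : ℕ} (c : ℕ → Fin m → algebraicClosure ℚ ℂ) (n : ℕ) (i : Fin m) : ℂ :=
  ∑ p ∈ n.primeFactors, (n.factorization p : ℂ) * (c p i : ℂ) * (Real.log p : ℂ)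

/-- The numbers `y z` satisfy no nonzero polynomial relation of degree at most `D` with coefficients
in `W`. -/
def Free {Z : Type} (W : Submodule (algebraicClosure ℚ ℂ) ℂ) (D : ℕ) (y : Z → ℂ) : Prop :=
  ∀ P : MvPolynomial Z ℂ, P.totalDegree ≤ D → (∀ s, P.coeff s ∈ W) →
    MvPolynomial.eval y P = 0 → P = 0

open Finset Pool.Agent.H443.PP Pool.Agent.H443.VF

theorem L_eq {m : ℕ} (c : ℕ → Fin m → algebraicClosure ℚ ℂ) (n : ℕ) (i : Fin m) :
    L c n i = Lc cSys.lg (RingHom.id _) c n i := by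
  unfold L Lc Finsupp.sum
  refine Finset.sum_congr rfl fun p _ => ?_
  show _ = _ * Complex.log (p : ℂ)
  rw [← Complex.ofReal_natCast p, ← Complex.ofReal_log (Nat.cast_nonneg p)]
  rfl

theorem Icc_Ioc (x : ℕ) : Icc 1 x = Ioc 0 x := by
  ext n
  simp only [Finset.mem_Icc, Finset.mem_Ioc]
  omega

theorem div_of {m : ℕ} (c : ℕ → Fin m → algebraicClosure ℚ ℂ)
    (h : ∀ g : Fin m → algebraicClosure ℚ ℂ, g ≠ 0 →
      ¬ Summable (fun p : {p : ℕ // p.Prime ∧ ∑ i, g i * c p i ≠ 0} => 1 / ((p : ℕ) : ℝ))) :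
    ∀ U : Submodule (algebraicClosure ℚ ℂ) (Fin m → algebraicClosure ℚ ℂ), U ≠ ⊤ →
      Pool.Agent.H443.PP.Div {p | p.Prime ∧ c p ∉ U} := by
  classical
  intro U hU
  obtain ⟨f, hf0, hf⟩ := Submodule.exists_le_ker_of_lt_top U (lt_top_iff_ne_top.2 hU)
  have hfx : ∀ x : Fin m → algebraicClosure ℚ ℂ, f x = ∑ i, f (Pi.single i 1) * x i := by
    intro x
    have h1 : x = ∑ i, x i • (Pi.single i (1 : algebraicClosure ℚ ℂ) :
        Fin m → algebraicClosure ℚ ℂ) := by
      funext p
      rw [Finset.sum_apply]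
      simp [Pi.single_apply]
    conv_lhs => rw [h1]
    rw [map_sum]
    refine Finset.sum_congr rfl fun i _ => ?_
    rw [map_smul, smul_eq_mul, mul_comm]
  have h1 := h (fun i => f (Pi.single i 1)) (by
    intro h2
    apply hf0
    apply LinearMap.ext
    intro x
    rw [hfx, LinearMap.zero_apply]
    refine Finset.sum_eq_zero fun i _ => ?_
    have h3 := congrFun h2 i
    simp only [Pi.zero_apply] at h3
    rw [h3, zero_mul])
  refine Pool.Agent.H443.PP.Div.mono (T := {p | p.Prime ∧ ∑ i, f (Pi.single i 1) * c p i ≠ 0}) ?_ ?_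
  · rintro p ⟨hp, hpf⟩
    refine ⟨hp, fun hcU => hpf ?_⟩
    rw [← hfx]
    exact hf hcU
  · intro hs
    apply h1
    exact (summable_subtype_iff_indicator (f := fun p : ℕ => (1 : ℝ) / p)
      (s := {p | p.Prime ∧ ∑ i, f (Pi.single i 1) * c p i ≠ 0})).2 hs

theorem lin_zero {m : ℕ} (c : ℕ → Fin m → algebraicClosure ℚ ℂ)
    (g : Fin m → algebraicClosure ℚ ℂ) (n : ℕ)
    (h : ∀ p ∈ {p : ℕ | p.Prime ∧ ∑ i, g i * c p i ≠ 0}, ¬ p ∣ n) :
    ∑ i, (g i : ℂ) * L c n i = 0 := by
  unfold L
  simp only [Finset.mul_sum]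
  rw [Finset.sum_comm]
  refine Finset.sum_eq_zero fun p hp => ?_
  have hp' := Nat.mem_primeFactors.1 hp
  have h1 : ∑ i, g i * c p i = 0 := by
    by_contra hne
    exact h p ⟨hp'.1, hne⟩ hp'.2.1
  have h2 : ∑ i, (g i : ℂ) * (c p i : ℂ) = 0 := by
    have h3 := congrArg (fun t : algebraicClosure ℚ ℂ => (t : ℂ)) h1
    push_cast at h3
    exact h3
  calc ∑ i, (g i : ℂ) * ((n.factorization p : ℂ) * (c p i : ℂ) * (Real.log p : ℂ))
      = (n.factorization p : ℂ) * (Real.log p : ℂ) * ∑ i, (g i : ℂ) * (c p i : ℂ) := by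
        rw [Finset.mul_sum]
        refine Finset.sum_congr rfl fun i _ => ?_
        ring
    _ = 0 := by rw [h2, mul_zero]

theorem not_free {m : ℕ} (c : ℕ → Fin m → algebraicClosure ℚ ℂ)
    (g : Fin m → algebraicClosure ℚ ℂ) (hg : g ≠ 0) (n : ℕ)
    (h : ∑ i, (g i : ℂ) * L c n i = 0) :
    ¬ Free (Submodule.span (algebraicClosure ℚ ℂ) {(1 : ℂ)}) 1
      (fun z : Fin 1 × Fin m => L c n z.2 + 0) := by
  classical
  intro hF
  have h1 := hF (∑ i, MvPolynomial.C (g i : ℂ) * MvPolynomial.X ((0 : Fin 1), i)) ?_ ?_ ?_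
  · apply hg
    funext i
    have h2 := congrArg (MvPolynomial.coeff (Finsupp.single ((0 : Fin 1), i) 1)) h1
    rw [MvPolynomial.coeff_sum, MvPolynomial.coeff_zero, Finset.sum_eq_single i] at h2
    · rw [MvPolynomial.coeff_C_mul, MvPolynomial.coeff_X, if_pos rfl, mul_one] at h2
      rw [Pi.zero_apply]
      exact Subtype.ext h2
    · intro j _ hj
      rw [MvPolynomial.coeff_C_mul, MvPolynomial.coeff_X, if_neg, mul_zero]
      intro h3
      have h4 := Finsupp.single_left_injective one_ne_zero h3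
      exact hj (congrArg Prod.snd h4)
    · intro h3; exact absurd (mem_univ _) h3
  · refine (MvPolynomial.totalDegree_finsetSum_le fun i _ => ?_)
    refine (MvPolynomial.totalDegree_mul _ _).trans ?_
    rw [MvPolynomial.totalDegree_C, MvPolynomial.totalDegree_X]
  · intro s
    rw [MvPolynomial.coeff_sum]
    refine Submodule.sum_mem _ fun i _ => ?_
    rw [MvPolynomial.coeff_C_mul, MvPolynomial.coeff_X]
    split_ifs
    · rw [mul_one, Submodule.mem_span_singleton]
      exact ⟨g i, by rw [Algebra.smul_def, mul_one]; rfl⟩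
    · rw [mul_zero]
      exact Submodule.zero_mem _
  · rw [map_sum]
    simp only [map_mul, MvPolynomial.eval_C, MvPolynomial.eval_X, add_zero]
    exact h

open Classical in
/-- **Main result.** -/
theorem result (m : ℕ) (c : ℕ → Fin m → algebraicClosure ℚ ℂ) : List.TFAE [
    -- the condition on the primes
    ∀ g : Fin m → algebraicClosure ℚ ℂ, g ≠ 0 →
      ¬ Summable (fun p : {p : ℕ // p.Prime ∧ ∑ i, g i * c p i ≠ 0} => 1 / ((p : ℕ) : ℝ)),
    -- no linear relation holds on a set of integers of positive lower density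
    ∀ g : Fin m → algebraicClosure ℚ ℂ, g ≠ 0 → ∀ ε : ℝ, 0 < ε → ∀ x₀ : ℕ, ∃ x ≥ x₀,
      (((Finset.Icc 1 x).filter fun n => ∑ i, (g i : ℂ) * L c n i = 0).card : ℝ) ≤ ε * x,
    -- no polynomial relation
    ∀ (k D N : ℕ) (ε : ℝ), 0 < ε → ∃ x₀ : ℕ, ∀ x : Fin k → ℕ, (∀ j, x₀ ≤ x j) →
      ∀ W : Submodule (algebraicClosure ℚ ℂ) ℂ, Module.Finite (algebraicClosure ℚ ℂ) W →
      Module.finrank (algebraicClosure ℚ ℂ) W ≤ N → ∀ s : Fin k × Fin m → ℂ,
      (((Fintype.piFinset fun j => Finset.Icc 1 (x j)).filter fun n : Fin k → ℕ =>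
        ¬ Free W D (fun z : Fin k × Fin m => L c (n z.1) z.2 + s z)).card : ℝ) ≤
          ε * ∏ j, (x j : ℝ)] := by
  tfae_have 1 → 3 := by
    intro h k D N ε hε
    obtain ⟨x₀, hx₀⟩ := tuples c (div_of c h) D k N ε hε
    refine ⟨x₀, fun x hx W hWf hWn s => ?_⟩
    have h1 := hx₀ x hx ℂ cSys (RingHom.id _) W hWf hWn s
    refine le_trans (Nat.cast_le.2 (Finset.card_le_card ?_)) h1
    intro n hn
    rw [Finset.mem_filter] at hn ⊢
    refine ⟨?_, fun hfree => hn.2 ?_⟩
    · have h2 := hn.1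
      simp only [Icc_Ioc] at h2
      exact h2
    · intro P hP hW hev
      refine (freeOver_iff W D _).1 hfree P hP hW ?_
      simp only [← L_eq]
      exact hev
  tfae_have 3 → 2 := by
    intro h g hg ε hε x₀
    obtain ⟨x₁, hx₁⟩ := h 1 1 1 ε hε
    refine ⟨max x₀ x₁, le_max_left _ _, ?_⟩
    set x := max x₀ x₁ with hx
    have h1 := hx₁ (fun _ => x) (fun _ => le_max_right _ _)
      (Submodule.span (algebraicClosure ℚ ℂ) {(1 : ℂ)}) inferInstance
      (by rw [finrank_span_singleton one_ne_zero]) (fun _ => 0)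
    rw [Fin.prod_univ_one] at h1
    refine le_trans (Nat.cast_le.2 ?_) h1
    apply Finset.card_le_card_of_injOn (fun n => fun _ : Fin 1 => n)
    · intro n hn
      have hn' := Finset.mem_filter.1 (Finset.mem_coe.1 hn)
      rw [Finset.mem_coe, Finset.mem_filter, Fintype.mem_piFinset]
      exact ⟨fun _ => hn'.1, not_free c g hg n hn'.2⟩
    · intro n _ n' _ h2
      exact congrFun h2 0
  tfae_have 2 → 1 := by
    intro h g hg hs
    have hs' := (summable_subtype_iff_indicator (f := fun p : ℕ => (1 : ℝ) / p)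
      (s := {p | p.Prime ∧ ∑ i, g i * c p i ≠ 0})).1 hs
    obtain ⟨δ, x₀, hδ, hx₀⟩ := sieve {p : ℕ | p.Prime ∧ ∑ i, g i * c p i ≠ 0}
      (fun p hp => hp.1) hs'
    obtain ⟨x, hx, hxc⟩ := h g hg (δ / 2) (by linarith) (max x₀ 1)
    have h1 := hx₀ x ((le_max_left _ _).trans hx)
    have h2 : (1 : ℝ) ≤ x := by exact_mod_cast (le_max_right _ _).trans hx
    have h3 : ((Ioc 0 x).filter (fun n => ∀ p ∈ {p : ℕ | p.Prime ∧ ∑ i, g i * c p i ≠ 0},
        ¬ p ∣ n)).card ≤ ((Finset.Icc 1 x).filter fun n => ∑ i, (g i : ℂ) * L c n i = 0).card := by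
      apply Finset.card_le_card
      intro n hn
      rw [Finset.mem_filter] at hn ⊢
      rw [Icc_Ioc]
      exact ⟨hn.1, lin_zero c g n hn.2⟩
    have h4 : (((Ioc 0 x).filter (fun n => ∀ p ∈ {p : ℕ | p.Prime ∧ ∑ i, g i * c p i ≠ 0},
        ¬ p ∣ n)).card : ℝ) ≤ ((Finset.Icc 1 x).filter fun n =>
          ∑ i, (g i : ℂ) * L c n i = 0).card := Nat.cast_le.2 h3
    nlinarith
  tfae_finish

end Pool.Agent.Results.MP_d171e3_nt.OnlyLinearObstructions
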